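import Pool.Agent.MP_961ca8_al.H15.Spec

/-! The ideal that is not tightly closed on the generic fibre. -/

namespace Pool.Agent.MP_961ca8_al.H15

open MvPolynomial Pool.Agent.MP_961ca8_al.H18

namespace NFA

/-- The exponent vector with given entries. -/
noncomputable def v3 (a b c : ℕ) : Fin 3 →₀ ℕ := Finsupp.equivFunOnFinite.symm ![a, b, c]

@[simp] theorem v3_0 (a b c : ℕ) : v3 a b c 0 = a := rfl
@[simp] theorem v3_1 (a b c : ℕ) : v3 a b c 1 = b := rfl
@[simp] theorem v3_2 (a b c : ℕ) : v3 a b c 2 = c := rfl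

theorem ext3 {x y : Fin 3 →₀ ℕ} (h0 : x 0 = y 0) (h1 : x 1 = y 1) (h2 : x 2 = y 2) : x = y := by
  ext j; fin_cases j <;> assumption

theorem all3 {p : Fin 3 → Prop} (h0 : p 0) (h1 : p 1) (h2 : p 2) (j : Fin 3) : p j := by
  fin_cases j <;> assumption

theorem deg3 (x : Fin 3 →₀ ℕ) : x.degree = x 0 + x 1 + x 2 := by
  rw [Finsupp.degree_eq_sum, Fin.sum_univ_three]

theorem cst (n : ℕ) (j : Fin 3) : v3 n n n j = n := all3 (p := fun j => v3 n n n j = n) rfl rfl rfl j

theorem ex_val (i : Fin 3) (a b c : ℕ) :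
    (ex i a b c 0 = a ∧ ex i a b c 1 = b ∧ ex i a b c 2 = c) ∨
    (ex i a b c 0 = c ∧ ex i a b c 1 = a ∧ ex i a b c 2 = b) ∨
    (ex i a b c 0 = b ∧ ex i a b c 1 = c ∧ ex i a b c 2 = a) := by
  fin_cases i <;> simp [ex]

theorem ex_add (i : Fin 3) (a b c d : ℕ) : ex i (d + a) (d + b) (d + c) = v3 d d d + ex i a b c := by
  fin_cases i <;> apply ext3 <;> simp [ex]

theorem split (q : ℕ) (hq : 0 < q) (x : Fin 3 →₀ ℕ) (hs : x 0 + x 1 + x 2 = 4 + 288 * q)
    (h : ∀ j, 76 * q ≤ x j) : ∃ y a : Fin 3 →₀ ℕ, x = q • y + a ∧ y 0 + y 1 + y 2 = 280 ∧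
      a 0 + a 1 + a 2 = 4 * (1 + 2 * q) ∧ ∀ j, 1 + 2 * q ≤ a j ∧ a j ≤ 2 + 4 * q := by
  have h0 := h 0
  have h1 := h 1
  have h2 := h 2
  have e0 := Nat.div_add_mod (x 0 - 1 - 2 * q) q
  have e1 := Nat.div_add_mod (x 1 - 1 - 2 * q) q
  have l0 := Nat.mod_lt (x 0 - 1 - 2 * q) hq
  have l1 := Nat.mod_lt (x 1 - 1 - 2 * q) hq
  generalize (x 0 - 1 - 2 * q) / q = y0 at e0
  generalize (x 1 - 1 - 2 * q) / q = y1 at e1
  generalize (x 0 - 1 - 2 * q) % q = r0 at e0 l0
  generalize (x 1 - 1 - 2 * q) % q = r1 at e1 l1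
  have h3 : y0 + y1 ≤ 280 := Nat.le_of_mul_le_mul_left (by rw [mul_add]; omega) hq
  obtain ⟨y2, h4⟩ := Nat.exists_eq_add_of_le h3
  have h5 : q * 280 = q * y0 + q * y1 + q * y2 := by rw [h4]; ring
  refine ⟨v3 y0 y1 y2, v3 (1 + 2 * q + r0) (1 + 2 * q + r1) (2 + 4 * q - r0 - r1), ?_, h4.symm,
    by simp only [v3_0, v3_1, v3_2]; omega, all3 ?_ ?_ ?_⟩
  · apply ext3 <;> simp only [Finsupp.add_apply, Finsupp.smul_apply, smul_eq_mul, v3_0, v3_1,
      v3_2] <;> omega
  all_goals simp only [v3_0, v3_1, v3_2]; omega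

theorem core (hM : MonStmt) (hN : NGStmt) (p : ℕ) [Fact p.Prime] (K : Type) [Field K] [CharP K p]
    (s : K) (hs : s ≠ 0) (e : ℕ) (Λ : P K →ₗ[K] K)
    (h1 : ∀ y : Fin 3 →₀ ℕ, y 0 + y 1 + y 2 = 280 → (∀ j, 70 ≤ y j) → (∃ i, 96 < y i) →
      ∀ f ∈ Aalg s, Λ (monomial (p ^ e • y) 1 * f) = 0)
    (h2 : ∀ (i : Fin 3) (j : ℕ), j ≤ 5 → ∀ f ∈ Aalg s,
      ∑ n ∈ Finset.range 9, (n.choose j : K) * ((-s) ^ p ^ e) ^ (n - j) *
        Λ (monomial (p ^ e • (v3 96 96 96 - ex i 0 n (8 - n))) 1 * f) = 0) :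
    Λ (monomial (v3 1 2 1 + p ^ e • v3 96 96 96) 1) = 0 := by
  classical
  have hq : 0 < p ^ e := pow_pos (Fact.out : p.Prime).pos e
  have hN' := hN p K s hs e 6 (18 * p ^ e - 4)
  generalize p ^ e = q at *
  have s0 : ∀ x : Fin 3 →₀ ℕ, x 0 + x 1 + x 2 = 4 + 288 * q → (∀ j, 76 * q ≤ x j) →
      (∃ i, 102 * q < x i) → Λ (monomial x 1) = 0 := by
    rintro x hx hb ⟨i, hi⟩
    obtain ⟨y, a, rfl, hy, ha, hj⟩ := split q hq x hx hb
    have := h1 y hy (fun j => ?_) ⟨i, ?_⟩ _ (hM K s _ a ha fun j => (hj j).1)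
    · rwa [monomial_mul, mul_one] at this
    · have b1 := hb j
      have b2 := (hj j).2
      rw [Finsupp.add_apply, Finsupp.smul_apply, smul_eq_mul] at b1
      exact Nat.le_of_mul_le_mul_left (by omega) hq
    · have b2 := (hj i).2
      rw [Finsupp.add_apply, Finsupp.smul_apply, smul_eq_mul] at hi
      exact Nat.lt_of_mul_lt_mul_left (a := q) (by omega)
  set G : P K := ∑ g ∈ (Finset.univ : Finset (Fin 3)).finsuppAntidiag (18 * q - 4),
    monomial g (Λ (monomial (q • v3 102 102 102 - g) 1)) with hG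
  have cG : ∀ g : Fin 3 →₀ ℕ, g 0 + g 1 + g 2 = 18 * q - 4 →
      coeff g G = Λ (monomial (q • v3 102 102 102 - g) 1) := fun g hg => by
    rw [hG, coeff_sum, Finset.sum_eq_single g, coeff_monomial, if_pos rfl]
    · intro b _ hb; rw [coeff_monomial, if_neg hb]
    · intro hn
      exact absurd (Finset.mem_finsuppAntidiag.2 ⟨by rwa [Fin.sum_univ_three], by simp⟩) hn
  have hom : G.IsHomogeneous (18 * q - 4) := IsHomogeneous.sum _ _ _ fun g hg =>
    isHomogeneous_monomial _ (by
      rw [Finsupp.degree_eq_sum]; exact (Finset.mem_finsuppAntidiag.1 hg).1)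
  have key : ∀ f : P K, f.IsHomogeneous (4 + 8 * q) → ∀ a : Fin 3 →₀ ℕ, a 0 + a 1 + a 2 = 26 →
      coeff (q • a) (G * f) = Λ (monomial (q • (v3 102 102 102 - a)) 1 * f) := by
    intro f hf a ha
    have hj : ∀ j, q * (102 - a j) + q * a j = 102 * q ∧ q * a j ≤ 26 * q := fun j => by
      have : a j ≤ 26 := all3 (p := fun j => a j ≤ 26) (by omega) (by omega) (by omega) j
      exact ⟨by rw [← mul_add, Nat.sub_add_cancel (by omega), mul_comm],
        by rw [mul_comm]; exact Nat.mul_le_mul_right q this⟩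
    have hsum : q * a 0 + q * a 1 + q * a 2 = 26 * q := by rw [← ha]; ring
    conv_lhs => rw [f.as_sum]
    conv_rhs => rw [f.as_sum]
    rw [Finset.mul_sum, Finset.mul_sum, coeff_sum, map_sum]
    refine Finset.sum_congr rfl fun b hb => ?_
    have hd : b 0 + b 1 + b 2 = 4 + 8 * q := by
      rw [← deg3]
      by_contra hn
      exact mem_support_iff.1 hb (hf.coeff_eq_zero hn)
    have e1 : (monomial (q • (v3 102 102 102 - a)) 1 * monomial b (coeff b f) : P K) =
        coeff b f • monomial (q • (v3 102 102 102 - a) + b) 1 := by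
      rw [monomial_mul, smul_monomial, one_mul, smul_eq_mul, mul_one]
    have t0 := hj 0
    have t1 := hj 1
    have t2 := hj 2
    rw [e1, map_smul, smul_eq_mul, coeff_mul_monomial', mul_comm (coeff b f)]
    split_ifs with hle
    · have u0 : b 0 ≤ q * a 0 := hle 0
      have u1 : b 1 ≤ q * a 1 := hle 1
      have u2 : b 2 ≤ q * a 2 := hle 2
      rw [cG _ (by simp only [Finsupp.tsub_apply, Finsupp.smul_apply, smul_eq_mul]; omega)]
      congr 4
      apply ext3 <;> simp only [Finsupp.tsub_apply, Finsupp.add_apply, Finsupp.smul_apply,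
        smul_eq_mul, v3_0, v3_1, v3_2] <;> omega
    · obtain ⟨i, hi⟩ : ∃ i, q * a i < b i := by
        by_contra hn
        push Not at hn
        exact hle hn
      have := s0 (q • (v3 102 102 102 - a) + b) ?_ (fun j => ?_) ⟨i, ?_⟩
      · rw [this, zero_mul]
      · simp only [Finsupp.tsub_apply, Finsupp.add_apply, Finsupp.smul_apply, smul_eq_mul, cst]
        omega
      · have := hj j
        simp only [Finsupp.tsub_apply, Finsupp.add_apply, Finsupp.smul_apply, smul_eq_mul, cst]
        omega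
      · have := hj i
        simp only [Finsupp.tsub_apply, Finsupp.add_apply, Finsupp.smul_apply, smul_eq_mul, cst]
        omega
  have hz := hN' G (by omega) hom (fun f hf hh a ⟨i, hi⟩ => ?_) fun f hf hh i j hj => ?_
  · have := cG (v3 (6 * q - 1) (6 * q - 2) (6 * q - 1)) (by simp only [v3_0, v3_1, v3_2]; omega)
    rw [hz, coeff_zero] at this
    rw [this]
    congr 3
    apply ext3 <;> simp only [Finsupp.tsub_apply, Finsupp.add_apply, Finsupp.smul_apply,
      smul_eq_mul, v3_0, v3_1, v3_2] <;> omega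
  · by_cases ha : a 0 + a 1 + a 2 = 26
    · rw [key f hh a ha]
      refine h1 _ ?_ (all3 ?_ ?_ ?_) ⟨i, ?_⟩ f hf <;> simp only [Finsupp.tsub_apply, cst] <;> omega
    · refine (hom.mul hh).coeff_eq_zero fun hn => ha (Nat.eq_of_mul_eq_mul_left hq ?_)
      rw [deg3] at hn
      simp only [Finsupp.smul_apply, smul_eq_mul] at hn
      rw [mul_add, mul_add]
      omega
  · rw [← h2 i j hj f hf]
    refine Finset.sum_congr rfl fun n hn => ?_
    have hn' := Finset.mem_range.1 hn
    have hv := ex_val i 0 n (8 - n)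
    have e1 : ex i 6 (6 + n) (6 + (8 - n)) = v3 6 6 6 + ex i 0 n (8 - n) := ex_add i 0 n (8 - n) 6
    rw [e1, key f hh _ (by simp only [Finsupp.add_apply, cst]; omega)]
    congr 6
    apply ext3 <;> simp only [Finsupp.tsub_apply, Finsupp.add_apply, cst] <;> omega

/-- The annihilator ideal. -/
def Ann (p : ℕ) : Ideal (AR p) where
  carrier := {r | ∀ r' : AR p, coeff (v3 96 96 96) (r.1 * r'.1) = 0}
  add_mem' {a b} ha hb r' := by
    rw [Subalgebra.coe_add, add_mul, coeff_add, ha r', hb r', add_zero]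
  zero_mem' r' := by simp
  smul_mem' c x hx r' := by
    have := hx (c * r')
    rwa [smul_eq_mul, Subalgebra.coe_mul, mul_comm c.1, mul_assoc, ← Subalgebra.coe_mul]

theorem in_span {B K : Type} [CommRing B] [Field K] [Algebra B K] (s : B) {f : P K}
    (hf : f ∈ Aalg (algebraMap B K s)) :
    f ∈ Submodule.span K (Set.range fun r : Aalg s => map (algebraMap B K) r.1) := by
  set V := Submodule.span K (Set.range fun r : Aalg s => map (algebraMap B K) r.1)
  have gen : ∀ g : Aalg s, ∀ v ∈ V, map (algebraMap B K) g.1 * v ∈ V := by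
    intro g v hv
    induction hv using Submodule.span_induction with
    | mem x hx =>
      obtain ⟨r, rfl⟩ := hx
      exact Submodule.subset_span ⟨g * r, by simp⟩
    | zero => simp
    | add x y _ _ hx hy => rw [mul_add]; exact V.add_mem hx hy
    | smul a x _ hx => rw [mul_smul_comm]; exact V.smul_mem a hx
  have key : ∀ v ∈ V, f * v ∈ V := by
    induction hf using Algebra.adjoin_induction with
    | mem x hx =>
      rcases hx with ⟨i, rfl⟩ | ⟨i, rfl⟩
      · simpa [th, uu] using gen ⟨th s i, Algebra.subset_adjoin (Or.inl ⟨i, rfl⟩)⟩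
      · simpa [hh] using gen ⟨hh i, Algebra.subset_adjoin (Or.inr ⟨i, rfl⟩)⟩
    | algebraMap k => intro v hv; rw [← Algebra.smul_def]; exact V.smul_mem k hv
    | add x y _ _ hx hy => intro v hv; rw [add_mul]; exact V.add_mem (hx v hv) (hy v hv)
    | mul x y _ _ hx hy => intro v hv; rw [mul_assoc]; exact hx _ (hy v hv)
  simpa using key 1 (Submodule.subset_span ⟨1, by simp⟩)

end NFA

open _root_.Pool.Agent.MP_961ca8_al.H15.NFA in
theorem nf_of : MonStmt → TayStmt → NGStmt → NFStmt := by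
  classical
  intro hM hT hN p _
  let B := Polynomial (ZMod p)
  let K := FractionRing B
  have inj : Function.Injective (algebraMap B K) := IsFractionRing.injective B K
  have : CharP K p := charP_of_injective_algebraMap inj p
  let u : AR p := ⟨monomial (v3 96 96 96) 1, hM B _ 72 _ rfl fun i => by rw [cst]; norm_num⟩
  let c : AR p := ⟨hh 1, Algebra.subset_adjoin (Or.inr ⟨1, rfl⟩)⟩
  have hc : c.1 = monomial (v3 1 2 1) 1 := by
    simp only [c, hh, X, monomial_mul, mul_one]
    congr 2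
    apply ext3 <;> simp
  refine ⟨Ann p, u, c, fun h => ?_, fun w hw h => hw ?_, fun e => ?_⟩
  · have := congrArg Subtype.val h
    rw [hc] at this
    simp at this
  · have := h 1
    rw [Subalgebra.coe_one, mul_one, Subalgebra.coe_mul, coeff_mul_monomial', if_pos le_rfl,
      tsub_self, mul_one] at this
    exact this
  let F : AR p →ₐ[B] P K := (mapAlgHom (Algebra.ofId B K)).comp (Aalg _).val
  have hF : ∀ r, F r = map (algebraMap B K) r.1 := fun _ => rfl
  let S : Submodule B (P K) := ((frobPow (Ann p) (p ^ e)).restrictScalars B).map F.toLinearMap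
  have claim : F (c * u ^ p ^ e) ∈ Submodule.span K (S : Set (P K)) := by
    by_contra hn
    obtain ⟨Λ, h0, h1⟩ := Submodule.exists_dual_map_eq_bot_of_notMem hn inferInstance
    have L0 : ∀ r ∈ Ann p, ∀ f ∈ Aalg (algebraMap B K Polynomial.X), Λ (F r ^ p ^ e * f) = 0 := by
      intro r hr f hf
      have hv := in_span _ hf
      clear hf
      induction hv using Submodule.span_induction with
      | mem x hx =>
        obtain ⟨g, rfl⟩ := hx
        rw [← Submodule.mem_bot K, ← h1]
        refine Submodule.mem_map_of_mem (Submodule.subset_span ⟨r ^ p ^ e * g,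
          Ideal.mul_mem_right _ _ (Ideal.subset_span ⟨r, hr, rfl⟩), ?_⟩)
        simp [hF]
      | zero => simp
      | add x y _ _ hx hy => rw [mul_add, map_add, hx, hy, add_zero]
      | smul a x _ hx => rw [mul_smul_comm, map_smul, hx, smul_zero]
    have mp : ∀ y : Fin 3 →₀ ℕ, map (algebraMap B K) (monomial y 1) ^ p ^ e =
        monomial (p ^ e • y) 1 := fun y => by rw [map_monomial, map_one, monomial_pow, one_pow]
    refine h0 (Eq.trans ?_ (core hM hN p K _ ((map_ne_zero_iff _ inj).2 Polynomial.X_ne_zero) e Λ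
      (fun y hy hb ⟨i, hi⟩ f hf => ?_) fun i j hj f hf => ?_))
    · rw [map_mul, map_pow, hF, hF, hc, mp, map_monomial, map_one, monomial_mul, mul_one]
    · rw [← mp]
      refine L0 ⟨monomial y 1, hM B _ 70 y hy hb⟩ (fun r' => ?_) f hf
      rw [coeff_monomial_mul', if_neg fun h => by have := h i; rw [cst] at this; omega]
    · have mem : ∀ n, n < 9 → (monomial (v3 96 96 96 - ex i 0 n (8 - n)) 1 : P B) ∈
          Aalg (Polynomial.X : B) := fun n hn => by
        have hv := ex_val i 0 n (8 - n)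
        refine hM B _ 70 _ ?_ (all3 ?_ ?_ ?_) <;> simp only [Finsupp.tsub_apply, cst] <;> omega
      have := L0 ⟨∑ n ∈ Finset.range 9, C ((n.choose j : B) * (-Polynomial.X) ^ (n - j)) *
          monomial (v3 96 96 96 - ex i 0 n (8 - n)) 1, Subalgebra.sum_mem _ fun n hn =>
            Subalgebra.mul_mem _ (Subalgebra.algebraMap_mem _ _) (mem n (Finset.mem_range.1 hn))⟩
        (fun r' => ?_) f hf
      · rw [hF, map_sum, sum_pow_char_pow, Finset.sum_mul, map_sum] at this
        rw [← this]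
        refine Finset.sum_congr rfl fun n _ => ?_
        have e1 : (n.choose j : K) ^ p ^ e = n.choose j := map_natCast (iterateFrobenius K p e) _
        symm
        rw [map_mul (map (algebraMap B K)), mul_pow, mp, map_C, ← map_pow, mul_assoc, C_mul',
          map_smul, smul_eq_mul, map_mul (algebraMap B K), map_natCast, map_pow, map_neg, mul_pow,
          e1, ← pow_mul, ← pow_mul, mul_comm (p ^ e)]
      · rw [← hT B _ r'.1 r'.2 i j hj, Finset.sum_mul, coeff_sum]
        refine Finset.sum_congr rfl fun n hn => ?_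
        have hn' := Finset.mem_range.1 hn
        have hv := ex_val i 0 n (8 - n)
        have e1 : v3 96 96 96 = v3 96 96 96 - ex i 0 n (8 - n) + ex i 0 n (8 - n) := by
          apply ext3 <;> simp only [Finsupp.tsub_apply, Finsupp.add_apply, cst] <;> omega
        rw [mul_assoc, coeff_C_mul]
        nth_rewrite 1 [e1]
        rw [coeff_monomial_mul, one_mul]
  obtain ⟨t, ht⟩ := multiple_mem_span_of_mem_localization_span (nonZeroDivisors B) K _ _ claim
  rw [Submodule.span_eq] at ht
  obtain ⟨z, hz, ez⟩ := ht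
  refine ⟨algebraMap B (AR p) t, ?_, ?_⟩
  · simp [ct]
  · have : z = algebraMap B (AR p) t * (c * u ^ p ^ e) := by
      apply Subtype.ext
      apply map_injective _ inj
      rw [← hF, ← hF, ← Algebra.smul_def, map_smul]
      exact ez
    exact this ▸ hz

end Pool.Agent.MP_961ca8_al.H15
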